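import Pool.Agent.Helper10.C3.Last

/-!
# Simple right alternative Malcev-admissible algebras of characteristic three are alternative

The proof is in `Pool/Agent/Helper10/C3`.
-/

namespace Pool.Agent.Results.MP_a52033_al.CharThree

/-- `A` is right alternative: `(xy)y = x(yy)`. -/
def RightAlternative (A : Type*) [NonUnitalNonAssocRing A] : Prop :=
  ∀ x y : A, (x * y) * y = x * (y * y)

/-- `A` is left alternative: `(xx)y = x(xy)`. -/
def LeftAlternative (A : Type*) [NonUnitalNonAssocRing A] : Prop :=
  ∀ x y : A, (x * x) * y = x * (x * y)

/-- `A` is alternative: left and right alternative. -/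
def Alternative (A : Type*) [NonUnitalNonAssocRing A] : Prop :=
  LeftAlternative A ∧ RightAlternative A

/-- The commutator product `[x,y] = xy - yx`. -/
def comm {A : Type*} [NonUnitalNonAssocRing A] (x y : A) : A := x * y - y * x

/-- The commutator algebra of `A` satisfies the Malcev identities: `[x,x] = 0` and
`[[x,y],[x,z]] = [[[x,y],z],x] + [[[y,z],x],x] + [[[z,x],x],y]`. -/
def MalcevAdmissible (A : Type*) [NonUnitalNonAssocRing A] : Prop :=
  (∀ x : A, comm x x = 0) ∧
  ∀ x y z : A, comm (comm x y) (comm x z) =
    comm (comm (comm x y) z) x + comm (comm (comm y z) x) x + comm (comm (comm z x) x) y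

/-- A two-sided ideal of the `F`-algebra `A`: a subspace stable under left and right
multiplication by all elements of `A`. -/
def IsTwoSidedIdeal (F : Type*) (A : Type*) [Field F] [NonUnitalNonAssocRing A] [Module F A]
    (I : Submodule F A) : Prop :=
  ∀ x ∈ I, ∀ a : A, a * x ∈ I ∧ x * a ∈ I

/-- `A` is simple: some product is nonzero (`A² ≠ 0`) and the only two-sided ideals are `0`
and `A`. -/
def IsSimpleAlgebra (F : Type*) (A : Type*) [Field F] [NonUnitalNonAssocRing A] [Module F A] :
    Prop :=
  (∃ x y : A, x * y ≠ 0) ∧ ∀ I : Submodule F A, IsTwoSidedIdeal F A I → I = ⊥ ∨ I = ⊤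

/-- Over a field of characteristic `3`, every simple algebra (of any dimension) which is right
alternative and Malcev-admissible is alternative. -/
theorem result (F : Type*) [Field F] (h3 : (3 : F) = 0) (A : Type*) [NonUnitalNonAssocRing A]
    [Module F A] [IsScalarTower F A A] [SMulCommClass F A A] (hs : IsSimpleAlgebra F A)
    (hra : RightAlternative A) (hm : MalcevAdmissible A) : Alternative A := by
  exact ⟨fun x y => Pool.Agent.C3.alternative_of_char_three h3 hs hra hm.2 x y, hra⟩

end Pool.Agent.Results.MP_a52033_al.CharThree
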