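import Mathlib

/-!
# Simple right alternative, non-alternative, Malcev-admissible algebras in characteristic two

Over every field `F` of characteristic `2` we exhibit a three-dimensional simple algebra which is
right alternative, not alternative, and whose commutator algebra is a Malcev algebra.

Structure constants (basis `e₁, e₂, e₃`, all products not listed are zero):
`e₁e₁ = e₃, e₁e₂ = e₁, e₁e₃ = e₂, e₂e₂ = e₂, e₃e₁ = e₂`.
-/

namespace Pool.Agent.Results.MP_a52033_al.CharTwo

/-- `A` is right alternative: `(xy)y = x(yy)`. -/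
def RightAlternative (A : Type*) [NonUnitalNonAssocRing A] : Prop :=
  ∀ x y : A, (x * y) * y = x * (y * y)

/-- `A` is left alternative: `(xx)y = x(xy)`. -/
def LeftAlternative (A : Type*) [NonUnitalNonAssocRing A] : Prop :=
  ∀ x y : A, (x * x) * y = x * (x * y)

/-- `A` is alternative: left and right alternative. -/
def Alternative (A : Type*) [NonUnitalNonAssocRing A] : Prop :=
  LeftAlternative A ∧ RightAlternative A

/-- The commutator product `[x,y] = xy - yx`. -/
def comm {A : Type*} [NonUnitalNonAssocRing A] (x y : A) : A := x * y - y * x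

/-- The commutator algebra of `A` satisfies the Malcev identities: `[x,x] = 0` and
`[[x,y],[x,z]] = [[[x,y],z],x] + [[[y,z],x],x] + [[[z,x],x],y]`. -/
def MalcevAdmissible (A : Type*) [NonUnitalNonAssocRing A] : Prop :=
  (∀ x : A, comm x x = 0) ∧
  ∀ x y z : A, comm (comm x y) (comm x z) =
    comm (comm (comm x y) z) x + comm (comm (comm y z) x) x + comm (comm (comm z x) x) y

/-- A two-sided ideal of the `F`-algebra `A`: a subspace stable under left and right
multiplication by all elements of `A`. -/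
def IsTwoSidedIdeal (F : Type*) (A : Type*) [Field F] [NonUnitalNonAssocRing A] [Module F A]
    (I : Submodule F A) : Prop :=
  ∀ x ∈ I, ∀ a : A, a * x ∈ I ∧ x * a ∈ I

/-- `A` is simple: some product is nonzero (`A² ≠ 0`) and the only two-sided ideals are `0`
and `A`. -/
def IsSimpleAlgebra (F : Type*) (A : Type*) [Field F] [NonUnitalNonAssocRing A] [Module F A] :
    Prop :=
  (∃ x y : A, x * y ≠ 0) ∧ ∀ I : Submodule F A, IsTwoSidedIdeal F A I → I = ⊥ ∨ I = ⊤

/-- The underlying space of the example: triples of elements of `F`. -/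
@[ext] structure Ex (F : Type*) where
  a : F
  b : F
  c : F

variable {F : Type*} [Field F]

namespace Ex

instance : Add (Ex F) := ⟨fun x y => ⟨x.a + y.a, x.b + y.b, x.c + y.c⟩⟩
instance : Zero (Ex F) := ⟨⟨0, 0, 0⟩⟩
instance : Neg (Ex F) := ⟨fun x => ⟨-x.a, -x.b, -x.c⟩⟩
instance : Sub (Ex F) := ⟨fun x y => ⟨x.a - y.a, x.b - y.b, x.c - y.c⟩⟩
instance : SMul F (Ex F) := ⟨fun r x => ⟨r * x.a, r * x.b, r * x.c⟩⟩
/-- `e₁e₁ = e₃, e₁e₂ = e₁, e₁e₃ = e₂, e₂e₂ = e₂, e₃e₁ = e₂`. -/
instance : Mul (Ex F) :=
  ⟨fun x y => ⟨x.a * y.b, x.a * y.c + x.b * y.b + x.c * y.a, x.a * y.a⟩⟩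

@[simp] theorem add_a (x y : Ex F) : (x + y).a = x.a + y.a := rfl
@[simp] theorem add_b (x y : Ex F) : (x + y).b = x.b + y.b := rfl
@[simp] theorem add_c (x y : Ex F) : (x + y).c = x.c + y.c := rfl
@[simp] theorem zero_a : (0 : Ex F).a = 0 := rfl
@[simp] theorem zero_b : (0 : Ex F).b = 0 := rfl
@[simp] theorem zero_c : (0 : Ex F).c = 0 := rfl
@[simp] theorem neg_a (x : Ex F) : (-x).a = -x.a := rfl
@[simp] theorem neg_b (x : Ex F) : (-x).b = -x.b := rfl
@[simp] theorem neg_c (x : Ex F) : (-x).c = -x.c := rfl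
@[simp] theorem sub_a (x y : Ex F) : (x - y).a = x.a - y.a := rfl
@[simp] theorem sub_b (x y : Ex F) : (x - y).b = x.b - y.b := rfl
@[simp] theorem sub_c (x y : Ex F) : (x - y).c = x.c - y.c := rfl
@[simp] theorem smul_a (r : F) (x : Ex F) : (r • x).a = r * x.a := rfl
@[simp] theorem smul_b (r : F) (x : Ex F) : (r • x).b = r * x.b := rfl
@[simp] theorem smul_c (r : F) (x : Ex F) : (r • x).c = r * x.c := rfl
@[simp] theorem mul_a (x y : Ex F) : (x * y).a = x.a * y.b := rfl
@[simp] theorem mul_b (x y : Ex F) : (x * y).b = x.a * y.c + x.b * y.b + x.c * y.a := rfl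
@[simp] theorem mul_c (x y : Ex F) : (x * y).c = x.a * y.a := rfl

instance : AddCommGroup (Ex F) where
  add_assoc x y z := by ext <;> simp [add_assoc]
  zero_add x := by ext <;> simp
  add_zero x := by ext <;> simp
  add_comm x y := by ext <;> simp [add_comm]
  neg_add_cancel x := by ext <;> simp
  sub_eq_add_neg x y := by ext <;> simp [sub_eq_add_neg]
  nsmul := nsmulRec
  zsmul := zsmulRec

instance : Module F (Ex F) where
  one_smul x := by ext <;> simp
  mul_smul r s x := by ext <;> simp [mul_assoc]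
  smul_zero r := by ext <;> simp
  smul_add r x y := by ext <;> simp [mul_add]
  add_smul r s x := by ext <;> simp [add_mul]
  zero_smul x := by ext <;> simp

instance : NonUnitalNonAssocRing (Ex F) where
  left_distrib x y z := by ext <;> simp <;> ring
  right_distrib x y z := by ext <;> simp <;> ring
  zero_mul x := by ext <;> simp
  mul_zero x := by ext <;> simp

instance : IsScalarTower F (Ex F) (Ex F) where
  smul_assoc r x y := by ext <;> simp [smul_eq_mul] <;> ring

instance : SMulCommClass F (Ex F) (Ex F) where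
  smul_comm r x y := by ext <;> simp [smul_eq_mul] <;> ring

/-- The linear identification with `F³`. -/
def equivPi : Ex F ≃ₗ[F] (Fin 3 → F) where
  toFun x := ![x.a, x.b, x.c]
  invFun v := ⟨v 0, v 1, v 2⟩
  map_add' x y := by ext i; fin_cases i <;> simp
  map_smul' r x := by ext i; fin_cases i <;> simp
  left_inv x := by ext <;> simp
  right_inv v := by ext i; fin_cases i <;> simp

theorem finrank_eq : Module.finrank F (Ex F) = 3 := by
  rw [equivPi.finrank_eq]; simp

end Ex

theorem rightAlternative [CharP F 2] : RightAlternative (Ex F) := by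
  intro x y
  have h2 : (2 : F) = 0 := CharP.cast_eq_zero F 2
  ext
  · simp only [Ex.mul_a, Ex.mul_b]
    linear_combination (-(x.a * y.a * y.c)) * h2
  · simp only [Ex.mul_a, Ex.mul_b, Ex.mul_c]
    linear_combination (x.a * y.b * y.c - y.c * x.b * y.a) * h2
  · simp only [Ex.mul_a, Ex.mul_c]
    ring

theorem comm_eq (x y : Ex F) : comm x y = ⟨x.a * y.b - y.a * x.b, 0, 0⟩ := by
  unfold comm
  ext
  · simp
  · simp; ring
  · simp; ring

theorem malcevAdmissible : MalcevAdmissible (Ex F) := by
  refine ⟨fun x => ?_, fun x y z => ?_⟩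
  · rw [comm_eq]; ext <;> simp
  · simp only [comm_eq]
    ext
    · simp; ring
    · simp
    · simp

theorem not_alternative : ¬ Alternative (Ex F) := by
  intro h
  have h1 := h.1 ⟨1, 0, 0⟩ ⟨0, 1, 0⟩
  have h2 := congrArg Ex.c h1
  simp at h2

theorem isSimple : IsSimpleAlgebra F (Ex F) := by
  refine ⟨⟨⟨1, 0, 0⟩, ⟨1, 0, 0⟩, ?_⟩, ?_⟩
  · intro h
    have := congrArg Ex.c h
    simp at this
  · intro I hI
    by_cases hb : I = ⊥
    · exact Or.inl hb
    · right
      obtain ⟨x, hx, hx0⟩ := Submodule.exists_mem_ne_zero_of_ne_bot hb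
      -- first show that `e₂ ∈ I`
      have key : (⟨0, 1, 0⟩ : Ex F) ∈ I := by
        by_cases ha : x.a = 0
        · by_cases hc : x.c = 0
          · have hb' : x.b ≠ 0 := by
              intro hb'
              apply hx0
              ext <;> simp [ha, hb', hc]
            have := I.smul_mem (x.b)⁻¹ hx
            have e : (x.b)⁻¹ • x = (⟨0, 1, 0⟩ : Ex F) := by
              ext <;> simp [ha, hc, hb']
            rwa [e] at this
          · have := I.smul_mem (x.c)⁻¹ (hI x hx ⟨1, 0, 0⟩).2
            have e : (x.c)⁻¹ • (x * ⟨1, 0, 0⟩) = (⟨0, 1, 0⟩ : Ex F) := by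
              ext <;> simp [ha, hc]
            rwa [e] at this
        · have := I.smul_mem (x.a)⁻¹ (hI x hx ⟨0, 0, 1⟩).2
          have e : (x.a)⁻¹ • (x * ⟨0, 0, 1⟩) = (⟨0, 1, 0⟩ : Ex F) := by
            ext <;> simp [ha]
          rwa [e] at this
      have key1 : (⟨1, 0, 0⟩ : Ex F) ∈ I := by
        have := (hI _ key ⟨1, 0, 0⟩).1
        have e : (⟨1, 0, 0⟩ : Ex F) * ⟨0, 1, 0⟩ = ⟨1, 0, 0⟩ := by
          ext <;> simp
        rwa [e] at this
      have key3 : (⟨0, 0, 1⟩ : Ex F) ∈ I := by
        have := (hI _ key1 ⟨1, 0, 0⟩).1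
        have e : (⟨1, 0, 0⟩ : Ex F) * ⟨1, 0, 0⟩ = ⟨0, 0, 1⟩ := by
          ext <;> simp
        rwa [e] at this
      rw [Submodule.eq_top_iff']
      intro y
      have e : y = y.a • (⟨1, 0, 0⟩ : Ex F) + y.b • (⟨0, 1, 0⟩ : Ex F) +
          y.c • (⟨0, 0, 1⟩ : Ex F) := by
        ext <;> simp
      rw [e]
      exact I.add_mem (I.add_mem (I.smul_mem _ key1) (I.smul_mem _ key)) (I.smul_mem _ key3)

/-- Over every field `F` of characteristic two there is a three-dimensional simple algebra which
is right alternative, not alternative and Malcev-admissible. -/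
theorem result.{u} (F : Type u) [Field F] [CharP F 2] :
    ∃ (A : Type u) (_ : NonUnitalNonAssocRing A) (_ : Module F A) (_ : IsScalarTower F A A)
      (_ : SMulCommClass F A A),
      Module.finrank F A = 3 ∧ IsSimpleAlgebra F A ∧ RightAlternative A ∧ ¬ Alternative A ∧
        MalcevAdmissible A :=
  ⟨Ex F, inferInstance, inferInstance, inferInstance, inferInstance, Ex.finrank_eq, isSimple,
    rightAlternative, not_alternative, malcevAdmissible⟩

end Pool.Agent.Results.MP_a52033_al.CharTwo
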